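import Pool.Agent.H84.SF.Geo

/-!
# MP_70ba79_ag, THEOREM S, chapter 11, row TRF: the equation in the frame
-/

set_option autoImplicit false

namespace Pool.Agent.H54.SF

open Pool.Agent.H84.SF
open MvPolynomial SC
open Pool.Agent.H27.LV (ge deg poleOrder canDeg)
open Pool.Agent.H92.OD (HS cf sg uu Lat geO IsO DF DD)
open Pool.Agent.H84.SM (y1 y2 Near cr dt dp)

/-- the exponents of degree three in two variables -/
noncomputable def mj (j : Fin 4) : Fin 2 →₀ ℕ :=
  Finsupp.single 0 (3 - (j : ℕ)) + Finsupp.single 1 (j : ℕ)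

theorem mj_zero (j : Fin 4) : mj j 0 = 3 - (j : ℕ) := by
  simp [mj]

theorem mj_one (j : Fin 4) : mj j 1 = (j : ℕ) := by
  simp [mj]

theorem mj_inj : Function.Injective mj := by
  intro a b h
  have h1 := congrArg (fun d => d 1) h
  simp only [mj_one] at h1
  exact Fin.ext h1

theorem eval₂_three {O K : Type} [CommRing O] [CommRing K] (f : O →+* K) (v : Fin 2 → K)
    (P : MvPolynomial (Fin 2) O) (hP : P.IsHomogeneous 3) :
    eval₂ f v P = ∑ j : Fin 4, f (coeff (mj j) P) * v 1 ^ (j : ℕ) * v 0 ^ (3 - (j : ℕ)) := by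
  rw [eval₂_eq']
  have hsub : P.support ⊆ Finset.univ.image mj := by
    intro d hd
    rw [mem_support_iff] at hd
    have h1 := hP hd
    have h2 : d 0 + d 1 = 3 := by
      rw [Finsupp.weight_apply, Finsupp.sum_fintype _ _ (by simp)] at h1
      simpa [Fin.sum_univ_two] using h1
    rw [Finset.mem_image]
    refine ⟨⟨d 1, by omega⟩, Finset.mem_univ _, ?_⟩
    ext i
    fin_cases i
    · change mj _ 0 = d 0
      rw [mj_zero]
      change 3 - d 1 = d 0
      omega
    · change mj _ 1 = d 1
      rw [mj_one]
  rw [Finset.sum_subset hsub (fun d _ hd => by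
    rw [notMem_support_iff] at hd
    rw [hd, map_zero, zero_mul]), Finset.sum_image (fun a _ b _ h => mj_inj h)]
  refine Finset.sum_congr rfl fun j _ => ?_
  rw [Fin.prod_univ_two, mj_zero, mj_one]
  ring

theorem pf_TRF : T_TRF := by
  intro k O K _ _ _ _ _ X G dX dG x D hD p A B hB h
  -- the polynomial after substitution
  let q : Fin 2 → MvPolynomial (Fin 2) O := fun i =>
    C (cr p (fun l => dX (p l)) i.succ) * MvPolynomial.X 0 +
      C (cr p (fun l => dG (p l)) i.succ) * MvPolynomial.X 1
  have hq : ∀ i, (q i).IsHomogeneous 1 := by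
    intro i
    apply IsHomogeneous.add
    · have h1 := (isHomogeneous_C (Fin 2) (cr p (fun l => dX (p l)) i.succ)).mul
        (isHomogeneous_X O (0 : Fin 2))
      simpa using h1
    · have h1 := (isHomogeneous_C (Fin 2) (cr p (fun l => dG (p l)) i.succ)).mul
        (isHomogeneous_X O (1 : Fin 2))
      simpa using h1
  have hBt : (aeval q B).IsHomogeneous 3 := by
    have h1 := hB.aeval q hq
    simpa using h1
  have hDp : ∀ l, D (x (p l)) = x (dX (p l)) * D (x X) + x (dG (p l)) * D (x G) :=
    fun l => hD (p l)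
  have hev : eval₂ (x : O →+* K)
      (fun i : Fin 2 => cr (fun l => x (p l)) (fun l => D (x (p l))) i.succ) B =
      eval₂ (x : O →+* K) ![D (x X), D (x G)] (aeval q B) := by
    have h1 : ∀ P : MvPolynomial (Fin 2) O, eval₂ (x : O →+* K)
        (fun i : Fin 2 => cr (fun l => x (p l)) (fun l => D (x (p l))) i.succ) P =
        eval₂ (x : O →+* K) ![D (x X), D (x G)] (aeval q P) := by
      intro P
      induction P using MvPolynomial.induction_on with
      | C a => simp
      | add P Q hP hQ => rw [eval₂_add, map_add, eval₂_add, hP, hQ]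
      | mul_X P i hP =>
        rw [eval₂_mul, map_mul, eval₂_mul, hP, eval₂_X, aeval_X]
        congr 1
        simp only [q, eval₂_add, eval₂_mul, eval₂_C, eval₂_X, Matrix.cons_val_zero,
          Matrix.cons_val_one]
        simp only [cr, hDp, RingHom.coe_coe, map_sub, map_mul]
        ring
    exact h1 B
  rw [hev, eval₂_three _ _ _ hBt] at h
  unfold EqK
  have hdt : ∀ a b c : Fin 3 → O, x (dt a b c) =
      dt (fun i => x (a i)) (fun i => x (b i)) (fun i => x (c i)) := by
    intro a b c
    simp only [dt, dp, cr, Fin.sum_univ_three, map_add, map_mul, map_sub]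
  have hDD : ∀ i, D (D (x (p i))) =
      (x (dX (dX (p i))) * D (x X) + x (dG (dX (p i))) * D (x G)) * D (x X) +
        x (dX (p i)) * D (D (x X)) +
      ((x (dX (dG (p i))) * D (x X) + x (dG (dG (p i))) * D (x G)) * D (x G) +
        x (dG (p i)) * D (D (x G))) := by
    intro i
    rw [hD (p i), map_add, Derivation.leibniz, Derivation.leibniz, hD (dX (p i)),
      hD (dG (p i))]
    simp only [smul_eq_mul]
    ring
  have hsum : x A * dt (fun i => x (p i)) (fun i => D (x (p i))) (fun i => D (D (x (p i)))) =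
      x (A * dt p (fun i => dX (p i)) (fun i => dG (p i))) *
        (D (x X) * D (D (x G)) - D (x G) * D (D (x X))) +
      ∑ j : Fin 4, x (A * cub dX dG p j) * D (x G) ^ (j : ℕ) * D (x X) ^ (3 - (j : ℕ)) := by
    have e1 : (fun i => D (D (x (p i)))) = fun i =>
      (x (dX (dX (p i))) * D (x X) + x (dG (dX (p i))) * D (x G)) * D (x X) +
        x (dX (p i)) * D (D (x X)) +
      ((x (dX (dG (p i))) * D (x X) + x (dG (dG (p i))) * D (x G)) * D (x G) +
        x (dG (p i)) * D (D (x G))) := funext hDD
    have e2 : (fun i => D (x (p i))) = fun i =>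
      x (dX (p i)) * D (x X) + x (dG (p i)) * D (x G) := funext fun i => hD (p i)
    rw [e1, e2]
    simp only [Fin.sum_univ_four, map_mul, cub, Matrix.cons_val_zero, Matrix.cons_val_one,
      Matrix.cons_val, map_add, hdt]
    generalize D (x X) = X1
    generalize D (x G) = G1
    generalize D X1 = X2
    generalize D G1 = G2
    simp only [dt, dp, cr, Fin.sum_univ_three, Fin.isValue, Fin.val_zero, Fin.val_one,
      Fin.val_two]
    norm_num
    ring
  rw [hsum] at h
  rw [← h, add_assoc, ← Finset.sum_add_distrib]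
  congr 1
  refine Finset.sum_congr rfl fun j _ => ?_
  have e3 : bco dX dG p B j = coeff (mj j) (aeval q B) := rfl
  beta_reduce
  rw [e3, map_add]
  simp only [Matrix.cons_val_zero, Matrix.cons_val_one, RingHom.coe_coe]
  ring

end Pool.Agent.H54.SF
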