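import Pool.Agent.H45.SF.GT

open Ordinal Cardinal Order Set
open scoped ZFSet

namespace SF.H54

open SF

theorem au (hAM : T_AM) : T_AU := by
  intro B _ N' N b σ hNP hM hb x y hxy
  have hne : σ x y ≠ ⊥ := by rw [hxy]; exact hb
  obtain ⟨hx, hy⟩ := hM.dom x y hne
  have hle : ∀ x2 y2, σ x2 y2 ≠ ⊥ → σ x2 y2 ≤ b := by
    intro x2 y2 h
    have h1 := hM.tot x2 (hM.dom x2 y2 h).1
    rw [← h1]
    exact le_iSup (fun y => σ x2 y) y2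
  have hinf : ∀ x2 y2, σ x2 y2 ≠ ⊥ → σ x2 y2 ⊓ σ x y ≠ ⊥ := by
    intro x2 y2 h
    rw [hxy, inf_eq_left.2 (hle x2 y2 h)]
    exact h
  refine ⟨hx, hy, ?_, ?_, ?_⟩
  · intro x2 hx2
    have h1 : σ x2 y ≠ ⊥ := by rw [hx2]; exact hb
    exact ((hAM B N' N b σ hNP hM x2 y x y (hinf x2 y h1)).2.1).2 rfl
  · intro y2 hy2
    by_contra hne2
    have h1 := hM.fn x y2 y hne2
    exact hinf x y2 hy2 h1
  · intro x2 y2 h
    have h1 := hAM B N' N b σ hNP hM x2 y2 x y (hinf x2 y2 h)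
    exact ⟨h1.1, h1.2.1⟩

end SF.H54
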