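import Pool.Agent.H9.SF.QDefs

open Ordinal Cardinal Order Set
open scoped ZFSet

namespace SF.H54

open SF

theorem qb (hQA : T_QA) : T_QB := by
  intro A mu ρ hne hρ C k hTS
  obtain ⟨hktop, -, -, hQ⟩ := (hQA.2 A mu ρ hne hρ).2 C k hTS
  -- the values of rho
  have hmem : ∀ ξ ∈ mu, ∀ η ∈ mu, app ρ (ZFSet.pair ξ η) ∈ A.B := fun ξ hξ η hη =>
    app_mem hρ.func (ZFSet.pair_mem_prod.2 ⟨hξ, hη⟩)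
  have hrv : ∀ ξ ∈ mu, ∀ η ∈ mu, (rv A ρ ξ η).val = app ρ (ZFSet.pair ξ η) := by
    intro ξ hξ η hη
    unfold rv mkEl
    rw [dif_pos (hmem ξ hξ η hη)]
  -- conditions
  have hP : ∀ (b : El A.B) (ξ : V), b ≠ ⊥ → ξ ∈ mu → ZFSet.pair b.val ξ ∈ qS A.B mu := by
    intro b ξ hb hξ
    refine ZFSet.pair_mem_prod.2 ⟨?_, hξ⟩
    unfold pos
    rw [ZFSet.mem_sdiff, ZFSet.mem_singleton]
    refine ⟨b.mem, fun h => hb ?_⟩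
    ext1
    rw [h, El.bot_val]
  have hP2 : ∀ z ∈ qS A.B mu, ∃ (b : El A.B) (ξ : V), b ≠ ⊥ ∧ ξ ∈ mu ∧ z = ZFSet.pair b.val ξ := by
    intro z hz
    obtain ⟨a, ha, ξ, hξ, rfl⟩ := ZFSet.mem_prod.1 hz
    unfold pos at ha
    rw [ZFSet.mem_sdiff, ZFSet.mem_singleton] at ha
    refine ⟨⟨a, ha.1⟩, ξ, fun h => ha.2 ?_, hξ, rfl⟩
    have h1 := congrArg El.val h
    rwa [El.bot_val] at h1
  have hle : ∀ (b b' : El A.B) (ξ ξ' : V), b ≠ ⊥ → b' ≠ ⊥ → ξ ∈ mu → ξ' ∈ mu →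
      (leQ A.B mu ρ (ZFSet.pair b.val ξ) (ZFSet.pair b'.val ξ') ↔ b ≤ b' ∧ b ≤ rv A ρ ξ ξ') := by
    intro b b' ξ ξ' hb hb' hξ hξ'
    unfold leQ qR
    rw [ZFSet.mem_sep, ZFSet.pair_mem_prod]
    simp only [fst_pair, snd_pair]
    rw [El.le_iff, El.le_iff, hrv ξ hξ ξ' hξ']
    exact ⟨fun h => h.2, fun h => ⟨⟨hP b ξ hb hξ, hP b' ξ' hb' hξ'⟩, h⟩⟩
  have htr : ∀ ξ ∈ mu, ∀ η ∈ mu, ∀ ζ ∈ mu, rv A ρ ξ η ⊓ rv A ρ η ζ ≤ rv A ρ ξ ζ := by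
    intro ξ hξ η hη ζ hζ
    rw [El.le_iff, El.inf_val, hrv ξ hξ η hη, hrv η hη ζ hζ, hrv ξ hξ ζ hζ]
    exact hρ.trans ξ hξ η hη ζ hζ
  have hrf : ∀ ξ ∈ mu, ∀ b : El A.B, b ≤ rv A ρ ξ ξ := by
    intro ξ hξ b
    rw [El.le_iff, hrv ξ hξ ξ hξ]
    exact hρ.refl ξ hξ b.val b.mem
  have hkm : ∀ x y : El A.B, x ≤ y → k x ≤ k y := by
    intro x y hxy
    have h1 := k.inf x y
    rw [inf_eq_left.2 hxy] at h1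
    rw [h1]
    exact inf_le_right
  have hk : ∀ (b x : El A.B) (ξ : V), b ≠ ⊥ → ξ ∈ mu → k b ⊓ c1 A C mu ρ ξ ≤ k x → b ≤ x := by
    intro b x ξ hb hξ h
    have h1 := ((hQ b ξ hb hξ).1 (k x)).2 h
    rw [hTS.map x] at h1
    unfold kS at h1
    rw [ZFSet.mem_sep, fst_pair] at h1
    exact El.le_iff.2 h1.2
  have hself : ∀ (b : El A.B) (ξ : V), b ≠ ⊥ → ξ ∈ mu → k b ⊓ c1 A C mu ρ ξ ≠ ⊥ := by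
    intro b ξ hb hξ h
    have h1 := ((hQ b ξ hb hξ).1 (k b ⊓ c1 A C mu ρ ξ)).2 le_rfl
    rw [h, El.bot_val] at h1
    exact ZFSet.notMem_empty _ h1
  -- the order of the conditions and the order of the algebra
  have hmono : ∀ (b b' : El A.B) (ξ ξ' : V), b ≠ ⊥ → b' ≠ ⊥ → ξ ∈ mu → ξ' ∈ mu →
      b ≤ b' → b ≤ rv A ρ ξ ξ' → k b ⊓ c1 A C mu ρ ξ ≤ k b' ⊓ c1 A C mu ρ ξ' := by
    intro b b' ξ ξ' hb hb' hξ hξ' h1 h2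
    rw [← (hQ b ξ hb hξ).1, (hQ b' ξ' hb' hξ').2.1]
    unfold cl
    refine ZFSet.mem_sep.2 ⟨hP b ξ hb hξ, fun r hr hle1 => ?_⟩
    obtain ⟨b2, ξ2, hb2, hξ2, rfl⟩ := hP2 r hr
    obtain ⟨h3, h4⟩ := (hle b2 b ξ2 ξ hb2 hb hξ2 hξ).1 hle1
    refine ⟨_, hr, (hle b2 b2 ξ2 ξ2 hb2 hb2 hξ2 hξ2).2 ⟨le_rfl, hrf ξ2 hξ2 b2⟩,
      (hle b2 b' ξ2 ξ' hb2 hb' hξ2 hξ').2 ⟨h3.trans h1, ?_⟩⟩
    exact (le_inf h4 (h3.trans h2)).trans (htr ξ2 hξ2 ξ hξ ξ' hξ')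
  have hext : ∀ (b b' : El A.B) (ξ ξ' : V), b ≠ ⊥ → b' ≠ ⊥ → ξ ∈ mu → ξ' ∈ mu →
      k b ⊓ c1 A C mu ρ ξ ≤ k b' ⊓ c1 A C mu ρ ξ' →
      ∃ (b2 : El A.B) (ξ2 : V), b2 ≠ ⊥ ∧ ξ2 ∈ mu ∧ b2 ≤ b ∧ b2 ≤ rv A ρ ξ2 ξ ∧ b2 ≤ b' ∧
        b2 ≤ rv A ρ ξ2 ξ' := by
    intro b b' ξ ξ' hb hb' hξ hξ' h
    rw [← (hQ b ξ hb hξ).1, (hQ b' ξ' hb' hξ').2.1] at h
    unfold cl at h
    obtain ⟨-, h1⟩ := ZFSet.mem_sep.1 h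
    obtain ⟨s, hs, h2, h3⟩ := h1 _ (hP b ξ hb hξ)
      ((hle b b ξ ξ hb hb hξ hξ).2 ⟨le_rfl, hrf ξ hξ b⟩)
    obtain ⟨b2, ξ2, hb2, hξ2, rfl⟩ := hP2 s hs
    obtain ⟨h4, h5⟩ := (hle b2 b ξ2 ξ hb2 hb hξ2 hξ).1 h2
    obtain ⟨h6, h7⟩ := (hle b2 b' ξ2 ξ' hb2 hb' hξ2 hξ').1 h3
    exact ⟨b2, ξ2, hb2, hξ2, h4, h5, h6, h7⟩
  have htop : (⊤ : El A.B) ≠ ⊥ := by
    intro h
    apply hne
    ext x
    rw [ZFSet.mem_singleton]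
    constructor
    · intro hx
      have h1 : (⟨x, hx⟩ : El A.B) ≤ ⊥ := h ▸ le_top
      have h2 := congrArg El.val (le_bot_iff.1 h1)
      rwa [El.bot_val] at h2
    · rintro rfl
      have h3 := (⊥ : El A.B).mem
      rwa [El.bot_val] at h3
  have hc1 : ∀ ξ, c1 A C mu ρ ξ = k ⊤ ⊓ c1 A C mu ρ ξ := by
    intro ξ
    rw [hktop, top_inf_eq]
  -- points of elements
  have hpt : ∀ Z : El C.B, Z ≠ ⊥ → ∃ (b : El A.B) (ξ : V), b ≠ ⊥ ∧ ξ ∈ mu ∧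
      k b ⊓ c1 A C mu ρ ξ ≤ Z := by
    intro Z hZ
    have h1 : Z.val.Nonempty := by
      rcases ZFSet.eq_empty_or_nonempty Z.val with h | h
      · exfalso
        apply hZ
        ext1
        rw [h, El.bot_val]
      · exact h
    obtain ⟨z, hz⟩ := h1
    have h2 : Z.val ∈ RO (qS A.B mu) (leQ A.B mu ρ) := by
      rw [← hTS.alg]
      exact Z.mem
    obtain ⟨b, ξ, hb, hξ, rfl⟩ := hP2 z ((mem_RO.1 h2).1 hz)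
    exact ⟨b, ξ, hb, hξ, ((hQ b ξ hb hξ).1 Z).1 hz⟩
  have hDP : ∀ X Y : El C.B, (∀ (b : El A.B) (ξ : V), b ≠ ⊥ → ξ ∈ mu →
      k b ⊓ c1 A C mu ρ ξ ≤ X → ∃ (b1 : El A.B) (ξ1 : V), b1 ≠ ⊥ ∧ ξ1 ∈ mu ∧
        k b1 ⊓ c1 A C mu ρ ξ1 ≤ k b ⊓ c1 A C mu ρ ξ ∧ k b1 ⊓ c1 A C mu ρ ξ1 ≤ Y) → X ≤ Y := by
    intro X Y h
    by_contra hXY
    have h1 : X ⊓ Yᶜ ≠ ⊥ := by
      intro h2
      apply hXY
      rw [← disjoint_iff, disjoint_compl_right_iff] at h2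
      exact h2
    obtain ⟨b, ξ, hb, hξ, hbξ⟩ := hpt _ h1
    obtain ⟨b1, ξ1, hb1, hξ1, h3, h4⟩ := h b ξ hb hξ (hbξ.trans inf_le_left)
    apply hself b1 ξ1 hb1 hξ1
    rw [← le_bot_iff, ← inf_compl_eq_bot (a := Y)]
    exact le_inf h4 ((h3.trans hbξ).trans inf_le_right)
  refine ⟨?_, ?_, ?_, ?_⟩
  · intro ξ hξ η hη
    refine hDP _ _ fun b ζ hb hζ h => ?_
    have h1 := hk b (rv A ρ ξ η) ζ hb hζ (h.trans inf_le_right)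
    have h2 := h.trans inf_le_left
    rw [hc1 ξ] at h2
    obtain ⟨b2, ζ2, hb2, hζ2, h3, h4, -, h5⟩ := hext b ⊤ ζ ξ hb htop hζ hξ h2
    refine ⟨b2, ζ2, hb2, hζ2, hmono b2 b ζ2 ζ hb2 hb hζ2 hζ h3 h4, ?_⟩
    rw [hc1 η]
    refine hmono b2 ⊤ ζ2 η hb2 htop hζ2 hη le_top ?_
    exact (le_inf h5 (h3.trans h1)).trans (htr ζ2 hζ2 ξ hξ η hη)
  · intro ξ hξ η hη
    refine hDP _ _ fun b ζ hb hζ h => ?_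
    have h2 := h.trans inf_le_left
    rw [hc1 ξ] at h2
    obtain ⟨b2, ζ2, hb2, hζ2, h3, h4, -, h5⟩ := hext b ⊤ ζ ξ hb htop hζ hξ h2
    have h6 := hmono b2 b ζ2 ζ hb2 hb hζ2 hζ h3 h4
    have h7 := h6.trans (h.trans inf_le_right)
    rw [hc1 η] at h7
    obtain ⟨b3, ζ3, hb3, hζ3, h8, h9, -, h10⟩ := hext b2 ⊤ ζ2 η hb2 htop hζ2 hη h7
    have h11 := hmono b3 b2 ζ3 ζ2 hb3 hb2 hζ3 hζ2 h8 h9
    refine ⟨b3, ζ3, hb3, hζ3, h11.trans h6, ?_⟩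
    refine le_trans ?_ (le_iSup (fun ζ : El mu => c1 A C mu ρ ζ.val ⊓
      k (rv A ρ ζ.val ξ ⊓ rv A ρ ζ.val η)) ⟨ζ3, hζ3⟩)
    refine le_inf inf_le_right (inf_le_left.trans (hkm _ _ (le_inf ?_ h10)))
    exact (le_inf h9 (h8.trans h5)).trans (htr ζ3 hζ3 ζ2 hζ2 ξ hξ)
  · intro d hd
    rw [eq_top_iff]
    refine hDP _ _ fun b ξ hb hξ _ => ?_
    obtain ⟨b1, hb1, hb1b, η, hη, h1⟩ := hd b hb ξ hξ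
    refine ⟨b1, η, hb1, hη, hmono b1 b η ξ hb1 hb hη hξ hb1b (h1.trans inf_le_left), ?_⟩
    refine le_trans ?_ (le_iSup (fun ξ : El mu => c1 A C mu ρ ξ.val ⊓ k (d ξ.val)) ⟨η, hη⟩)
    exact le_inf inf_le_right (inf_le_left.trans (hkm _ _ (h1.trans inf_le_right)))
  · intro Z hZ
    by_contra hZ0
    obtain ⟨b, ξ, hb, hξ, h⟩ := hpt Z hZ0
    apply hself b ξ hb hξ
    rw [← le_bot_iff, ← hZ ξ hξ]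
    exact le_inf h inf_le_right

end SF.H54
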