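import Pool.Agent.H9.SF.WDefs

open Ordinal Cardinal Order Set
open scoped ZFSet

namespace SF.H54

open SF

private theorem wi_mem_pos {B x : V} : x ∈ pos B ↔ x ∈ B ∧ x ≠ ∅ := by
  unfold pos
  rw [ZFSet.mem_sdiff, ZFSet.mem_singleton]

private theorem wi_mem_incl {B x y : V} :
    ZFSet.pair x y ∈ incl B ↔ x ∈ pos B ∧ y ∈ pos B ∧ x ⊆ y := by
  unfold incl
  rw [ZFSet.mem_sep, ZFSet.pair_mem_prod, fst_pair, snd_pair, and_assoc]

theorem wi (hFC : T_FC) (hFD : T_FD) (hFG : T_FG) (hWF : T_WF) (hWG : T_WG) (hWH : T_WH) :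
    T_WI := by
  intro M B hM hB hC hne φ v hv
  have hPo : IsPo (pos B) (incl B) := hWG.2.2.1 M B hC hne
  have hMp : M (pos B) := hWF.2.2.1.1 M hM (fun _ => B) (fun _ => hB)
  have hMi : M (incl B) := hWF.2.2.2.1.1 M hM (fun _ => B) (fun _ => hB)
  set S : V := (pos B).sep fun p => frc M (incl B) φ v p with hS
  have hMS : M S := by
    have h1 := (hFC φ).rn (fun i => if i = 0 then 1 else if i = 1 then 0 else i)
    obtain ⟨ψ, hψ⟩ := h1
    have h2 := hM.sep ψ (cons (incl B) v) (pos B) (hv.cons hMi) hMp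
    have h3 : ((pos B).sep fun z => Sat M ψ (cons z (cons (incl B) v))) = S := by
      ext z
      rw [hS, ZFSet.mem_sep, ZFSet.mem_sep]
      refine and_congr_right fun hz => ?_
      exact hψ M hM _ ((hv.cons hMi).cons (hM.trans _ hMp z hz))
    rwa [h3] at h2
  have hSB : S ⊆ B := fun z hz => (wi_mem_pos.1 (ZFSet.mem_sep.1 hz).1).1
  have hb : LubB B S (bv M B φ v) := by
    have h := hC.lub S hMS hSB
    unfold bv
    rw [dif_pos h]
    exact h.choose_spec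
  set b := bv M B φ v with hbdef
  have key : ∀ p ∈ pos B, p ⊆ b ↔ frc M (incl B) φ v p := by
    intro p hp
    constructor
    · intro hpb
      refine (hFD M (pos B) (incl B) hPo φ v).2 p hp fun q hq => ?_
      obtain ⟨hq1, -, hq2⟩ := wi_mem_incl.1 hq
      obtain ⟨hqB, hq0⟩ := wi_mem_pos.1 hq1
      have h1 : ∃ s ∈ S, s ∩ q ≠ ∅ := by
        by_contra hcon
        push Not at hcon
        have h2 := (hWG.2.2.2 M B hC).2 S b q hb hSB hqB hcon
        apply hq0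
        rw [← h2]
        ext z
        rw [ZFSet.mem_inter]
        exact ⟨fun hz => ⟨hpb (hq2 hz), hz⟩, fun hz => hz.2⟩
      obtain ⟨s, hs, hsq⟩ := h1
      have h3 : s ∩ q ∈ pos B := wi_mem_pos.2 ⟨hC.inter s (hSB hs) q hqB, hsq⟩
      have h4 : s ∈ pos B := (ZFSet.mem_sep.1 hs).1
      refine ⟨s ∩ q, wi_mem_incl.2 ⟨h3, hq1, fun z hz => (ZFSet.mem_inter.1 hz).2⟩, ?_⟩
      exact (hFD M (pos B) (incl B) hPo φ v).1 s (s ∩ q) (ZFSet.mem_sep.1 hs).2
        (wi_mem_incl.2 ⟨h3, h4, fun z hz => (ZFSet.mem_inter.1 hz).1⟩)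
    · intro hp2
      exact hb.2.1 p (ZFSet.mem_sep.2 ⟨hp, hp2⟩)
  refine ⟨hb.1, key, fun G hG => ?_⟩
  have hT := hFG M (pos B) (incl B) G hM hMp hMi hPo hG φ v hv
  obtain ⟨-, hH2, hH3, -⟩ := hWH M B G hM hB hC hG
  rw [hT]
  constructor
  · intro hbG
    obtain ⟨h1, h2⟩ := hH2 b hbG
    exact ⟨b, hbG, (key b (wi_mem_pos.2 ⟨h1, h2⟩)).1 fun z hz => hz⟩
  · rintro ⟨p, hp, hp2⟩
    obtain ⟨h1, h2⟩ := hH2 p hp
    exact hH3 p hp b hb.1 ((key p (wi_mem_pos.2 ⟨h1, h2⟩)).2 hp2)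

end SF.H54
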