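import Pool.Agent.H72.SF.XT

open Ordinal Cardinal Order Set
open scoped ZFSet

namespace SF.H54

open SF

/-- the set of the elements of `v 0` which are below a value of `v 2` at `(v 3, x)`, `x ∈ v 1` -/
private noncomputable def X2_f (v : ℕ → V) : V :=
  (v 0).sep fun d => ∃ x ∈ v 1, ∃ e ∈ v 0, ZFSet.pair (ZFSet.pair (v 3) x) e ∈ v 2 ∧ d ⊆ e

private theorem X2_tm : Tm ZFm (fun _ v => X2_f v) := by
  have h1 : Dfb ZFm (fun _ u => ZFSet.pair (ZFSet.pair (u 6) (u 1)) (u 0) ∈ u 5 ∧ u 2 ⊆ u 0) :=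
    (Dfb.mem (Tm.pair (Tm.pair (Tm.var 6) (Tm.var 1)) (Tm.var 0)) (Tm.var 5)).and
      (Dfb.subset (Tm.var 2) (Tm.var 0))
  have h2 : Dfb ZFm (fun _ w => ∃ e ∈ w 2, ZFSet.pair (ZFSet.pair (w 5) (w 0)) e ∈ w 4 ∧
      w 1 ⊆ e) := Dfb.bex ktr_zfm (Tm.var 2) h1
  have h3 : Dfb ZFm (fun _ w => ∃ x ∈ w 2, ∃ e ∈ w 1, ZFSet.pair (ZFSet.pair (w 4) x) e ∈ w 3 ∧
      w 0 ⊆ e) := Dfb.bex ktr_zfm (Tm.var 2) h2
  exact Tm.sep h3 (Tm.var 0)

theorem x2 (hX1 : T_X1) (hAH : T_AH) (hAK : T_AK) (hAP : T_AP) (hAM : T_AM) (hTF : T_TF)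
    (hAD : T_AD) : T_X2 := by
  intro C hC F hF c0 hc0
  classical
  set Fs : V := resS (ZFSet.prod om HC) (fun z => (F (fst z) (snd z)).val) with hFs
  obtain ⟨c, N', N, σ, w, C', G', s', hc, hcc0, hNP, hB, -, hCC, hss, hG, hcom, -⟩ :=
    hX1 C hC c0 hc0 (ZFSet.pair HC Fs)
  have hle : ∀ x2 y2, σ x2 y2 ≤ c := by
    intro x2 y2
    by_cases h : σ x2 y2 = ⊥
    · rw [h]
      exact bot_le
    · have h1 := hB.tot x2 (hB.dom x2 y2 h).1
      rw [← h1]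
      exact le_iSup (fun y => σ x2 y) y2
  obtain ⟨hAP1, hAP2, -, hNtr, -⟩ := hAP C.B N' N c σ hNP hB hc
  obtain ⟨H', hH'N, F', hF'N, rfl, hHF⟩ := hAP2 s' HC Fs (by rw [hss]; exact hc)
  rw [hss] at hHF
  have hH : σ H' HC = c := le_antisymm (hle _ _) (hHF.trans inf_le_left)
  have hFF : σ F' Fs = c := le_antisymm (hle _ _) (hHF.trans inf_le_right)
  obtain ⟨hHtr, hHk, -⟩ := hAH C.B N' N c σ hNP hB hc H' hH
  obtain ⟨hK1, -⟩ := hAK C.B N' N c σ hNP hB hc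
  have hC'N : C' ∈ N' := (hB.dom C' C.B (by rw [hCC]; exact hc)).1
  refine ⟨c, hcc0, hc, fun n hn => ?_⟩
  obtain ⟨m, rfl⟩ := mem_om.1 hn
  obtain ⟨hmN, hmm⟩ := hK1 m
  -- the two dense sets
  let v : ℕ → V × V := fun i => if i = 0 then (C', C.B) else if i = 1 then (H', HC) else
    if i = 2 then (F', Fs) else (nS m, nS m)
  let S : Finset (V × V) := {(C', C.B), (H', HC), (F', Fs), (nS m, nS m)}
  have hS : (S.inf fun q => σ q.1 q.2) = c := by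
    show (({(C', C.B), (H', HC), (F', Fs), (nS m, nS m)} : Finset (V × V)).inf
      fun q => σ q.1 q.2) = c
    rw [Finset.inf_insert, Finset.inf_insert, Finset.inf_insert, Finset.inf_singleton]
    show σ C' C.B ⊓ (σ H' HC ⊓ (σ F' Fs ⊓ σ (nS m) (nS m))) = c
    rw [hCC, hH, hFF, hmm, inf_idem, inf_idem, inf_idem]
  have hvS : ∀ i, v i ∈ S := by
    intro i
    show (if i = 0 then (C', C.B) else if i = 1 then (H', HC) else
      if i = 2 then (F', Fs) else (nS m, nS m)) ∈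
        ({(C', C.B), (H', HC), (F', Fs), (nS m, nS m)} : Finset (V × V))
    split_ifs <;> simp
  obtain ⟨hDN, hDE⟩ := hTF (fun _ v => X2_f v) X2_tm C.B N' N c σ hNP hB S
    (by rw [hS]; exact hc) v hvS
  rw [hS] at hDE
  set D : V := X2_f (fun i => (v i).1) with hD
  set E : V := X2_f (fun i => (v i).2) with hE
  have hDm : ∀ d, d ∈ D ↔ d ∈ C' ∧ ∃ x ∈ H', ∃ e ∈ C', ZFSet.pair (ZFSet.pair (nS m) x) e ∈ F' ∧
      d ⊆ e := fun d => ZFSet.mem_sep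
  have hEm : ∀ d, d ∈ E ↔ d ∈ C.B ∧ ∃ x ∈ HC, ∃ e ∈ C.B, ZFSet.pair (ZFSet.pair (nS m) x) e ∈ Fs ∧
      d ⊆ e := fun d => ZFSet.mem_sep
  have hDE2 : σ D E ≠ ⊥ := fun h => hc (le_bot_iff.1 (h ▸ hDE))
  obtain ⟨-, hdense⟩ := hAD C.B N' N c σ hNP hB hc C' C.B hCC D E hDE2
  have hEd : ∀ x ∈ C.B, x ≠ ∅ → ∃ d ∈ E, d ≠ ∅ ∧ d ⊆ x := by
    intro z hz hz0
    have h1 : ∃ x : El HC, (⟨z, hz⟩ : El C.B) ⊓ F (nS m) x.val ≠ ⊥ := by
      by_contra hcon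
      push Not at hcon
      have h2 : (⟨z, hz⟩ : El C.B) ⊓ (⨆ x : El HC, F (nS m) x.val) = ⊥ := by
        rw [inf_iSup_eq]
        exact iSup_eq_bot.2 hcon
      rw [hF (nS m) hn, inf_top_eq] at h2
      apply hz0
      have h3 := congrArg El.val h2
      rw [El.bot_val] at h3
      exact h3
    obtain ⟨x, hx⟩ := h1
    refine ⟨((⟨z, hz⟩ : El C.B) ⊓ F (nS m) x.val).val, ?_, ?_, ?_⟩
    · refine (hEm _).2 ⟨El.mem _, x.val, x.mem, (F (nS m) x.val).val, El.mem _, ?_, ?_⟩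
      · rw [hFs, mem_resS]
        refine ⟨ZFSet.pair (nS m) x.val, ZFSet.pair_mem_prod.2 ⟨hn, x.mem⟩, ?_⟩
        rw [fst_pair, snd_pair]
      · exact El.le_iff.1 inf_le_right
    · intro h
      apply hx
      ext1
      rw [h, El.bot_val]
    · exact El.le_iff.1 (inf_le_left : (⟨z, hz⟩ : El C.B) ⊓ F (nS m) x.val ≤ ⟨z, hz⟩)
  obtain ⟨d, hdD, hdG⟩ := hG.meets D hDN (fun d hd => ((hDm d).1 hd).1) (hdense.2 hEd)
  obtain ⟨hdC, x, hxH, e, heC, hpe, hde⟩ := (hDm d).1 hdD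
  have heG : e ∈ G' := hG.up d hdG e heC hde
  obtain ⟨hxx, hxHC⟩ := hHk x hxH
  have heN : e ∈ N' := hNtr C' hC'N heC
  have hxN : x ∈ N' := hNtr H' hH'N hxH
  refine ⟨x, hxHC, ?_⟩
  rw [← hB.tot e heN]
  refine iSup_le fun z => ?_
  by_cases hz : σ e z = ⊥
  · rw [hz]
    exact bot_le
  · obtain ⟨hpN, h1, -⟩ := hAP1 (nS m) hmN x hxN
    have h2 : σ (ZFSet.pair (nS m) x) (ZFSet.pair (nS m) x) = c := by
      refine le_antisymm (hle _ _) ?_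
      have h3 := h1 (nS m) x
      rw [hmm, hxx, inf_idem] at h3
      exact h3
    obtain ⟨-, h4, -⟩ := hAP1 (ZFSet.pair (nS m) x) hpN e heN
    have h5 := h4 (ZFSet.pair (nS m) x) z
    rw [h2, inf_eq_right.2 (hle e z)] at h5
    have h6 : σ (ZFSet.pair (ZFSet.pair (nS m) x) e) (ZFSet.pair (ZFSet.pair (nS m) x) z) ⊓
        σ F' Fs ≠ ⊥ := by
      rw [hFF]
      intro h7
      apply hz
      rw [← le_bot_iff, ← h7]
      exact le_inf h5 (hle e z)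
    have h8 := (hAM C.B N' N c σ hNP hB _ _ _ _ h6).1.1 hpe
    rw [hFs, mem_resS] at h8
    obtain ⟨t, ht, ht2⟩ := h8
    obtain ⟨h9, h10⟩ := ZFSet.pair_injective ht2
    rw [h9, fst_pair, snd_pair] at h10
    have h11 := hcom e heG z
    have h12 : mkEl C.B z = F (nS m) x := by
      unfold mkEl
      rw [← h10, dif_pos (El.mem _)]
    rwa [h12] at h11

end SF.H54
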