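import Pool.Agent.H72.SF.XT

open Ordinal Cardinal Order Set
open scoped ZFSet

namespace SF.H54

open SF

/-- the natural number of a set -/
private noncomputable def XN_idx (m : V) : ℕ :=
  open Classical in if h : ∃ n, m = nS n then h.choose else 0

private theorem XN_idx_nS (n : ℕ) : XN_idx (nS n) = n := by
  have h : ∃ k, nS n = nS k := ⟨n, rfl⟩
  unfold XN_idx
  rw [dif_pos h]
  exact (nS_inj.1 h.choose_spec).symm

theorem xn (hX2 : T_X2) (hXB : T_XB) : T_XN := by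
  intro A hA F b hb hF
  classical
  set F2 : V → V → El A.B := fun m x =>
    if x ∈ w1 then F (XN_idx m) x.rank ⊔ bᶜ else ⊥ with hF2
  have hw1 : w1 ⊆ HC := hXB.2.2.2.2.1
  have hmw : ∀ β < o1, β.toZFSet ∈ w1 := fun β hβ => Ordinal.mem_toZFSet_iff.2 ⟨β, hβ, rfl⟩
  have hval : ∀ n, ∀ β < o1, F2 (nS n) β.toZFSet = F n β ⊔ bᶜ := by
    intro n β hβ
    rw [hF2]
    simp only
    rw [if_pos (hmw β hβ), XN_idx_nS, Ordinal.rank_toZFSet]
  have h0 : (0 : Ordinal.{0}) < o1 := Ordinal.omega_pos 1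
  have htop : ∀ n ∈ om, (⨆ x : El HC, F2 n x.val) = ⊤ := by
    intro m hm
    obtain ⟨n, rfl⟩ := mem_om.1 hm
    rw [eq_top_iff, ← sup_compl_eq_top (x := b)]
    refine sup_le ((hF n).trans ?_) ?_
    · refine iSup₂_le fun β hβ => ?_
      have h1 := le_iSup (fun x : El HC => F2 (nS n) x.val) ⟨β.toZFSet, hw1 (hmw β hβ)⟩
      refine le_trans ?_ h1
      show F n β ≤ F2 (nS n) β.toZFSet
      rw [hval n β hβ]
      exact le_sup_left
    · have h1 := le_iSup (fun x : El HC => F2 (nS n) x.val)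
        ⟨(0 : Ordinal.{0}).toZFSet, hw1 (hmw 0 h0)⟩
      refine le_trans ?_ h1
      show bᶜ ≤ F2 (nS n) (0 : Ordinal.{0}).toZFSet
      rw [hval n 0 h0]
      exact le_sup_right
  obtain ⟨c, hcb, hc0, hc⟩ := hX2 A hA F2 htop b hb
  have key : ∀ n : ℕ, ∃ β < o1, c ≤ F n β := by
    intro n
    obtain ⟨x, -, hx⟩ := hc (nS n) (mem_om.2 ⟨n, rfl⟩)
    by_cases hxw : x ∈ w1
    · obtain ⟨β, hβ, rfl⟩ := Ordinal.mem_toZFSet_iff.1 hxw
      rw [hval n β hβ] at hx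
      refine ⟨β, hβ, ?_⟩
      have h1 : c ≤ (F n β ⊔ bᶜ) ⊓ b := le_inf hx hcb
      rw [inf_sup_right, compl_inf_eq_bot, sup_bot_eq] at h1
      exact h1.trans inf_le_left
    · exfalso
      apply hc0
      rw [hF2] at hx
      simp only [if_neg hxw] at hx
      exact le_bot_iff.1 hx
  choose φ hφ1 hφ2 using key
  exact ⟨c, hcb, hc0, φ, fun n => ⟨hφ1 n, hφ2 n⟩⟩

end SF.H54
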